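import Mathlib
import Pool.Agent.V1118.SpD
import Pool.Agent.Results.MP_10e784_ag.TwistsWithMixedFactors
import Pool.Agent.Results.MP_10e784_ag.TwistsWithTrivialPoints

/-!
# The rational points on the quadratic twists by `± ⌊α n ^ c⌋`, `c > 1`

Let `c > 1` be real.  For all real `α > 0` outside a set of Hausdorff dimension smaller than one, which
does not depend on the curves, the twists by `d = ± ⌊α n ^ c⌋`, where `⌊α n ^ c⌋` is squarefree (this is
so for at least `N / 5` of the `n ≤ N`), behave like almost all twists: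

* Let `f k ∈ ℤ[x]` be irreducible over `ℚ`, pairwise non-associated, of even total degree, at least
four of them of odd degree, with homogenisations `F k`, and suppose that the linear factors satisfy the
condition `General`.  For all but `C N (log N) ^ (-δ)` of the `n ≤ N` all rational points of
`d y² = ∏ k, F k (x, w)` with `y ≠ 0` are of constant type, and there are none if only finitely many
rational numbers are of constant type (which is so for genus at least 2, by Faltings's theorem).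
If no `f k` is linear, there are no rational points.  Here `δ > 0` depends on the `f k` only.
* All but `C N (log N) ^ (-δ)` of the curves `d y² = x⁵ - x` have exactly the four rational points
`(0, 0)`, `(1, 0)`, `(-1, 0)`, `∞`.
* Let `A` be a finite set of `2 g + 1 ≥ 7` integers which is generic (`GenSet`) and has many four term
arithmetic progressions (`FermatSet`).  All but `C N (log N) ^ (-1/5)` of the curves
`d y² = ∏ a ∈ A, (x - a)` have exactly `2 g + 2` rational points.  In particular this holds for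
`d y² = x (x² - 1) (x² - 9) ⋯ (x² - 9 ^ (g - 1))`, `g ≥ 3`.

The starting library has these theorems for the sequence of all squarefree `d`, which says nothing
about sparse sequences of `d`.
-/

set_option autoImplicit false

open Polynomial Finset
open Pool.Agent.V1118.SpD
open Pool.Agent.Results.MP_10e784_ag.TwistsWithMixedFactors
open Pool.Agent.Results.MP_10e784_ag.TwistsWithTrivialPoints (GenSet FermatSet)

namespace Pool.Agent.Results.MP_10e784_ag.SparseTwists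

/-- `d` is squarefree and some rational point with `y ≠ 0` of the twist is not of constant type -/
def NotConst {r : ℕ} (f : Fin r → ℤ[X]) (d : ℤ) : Prop :=
  Squarefree d ∧ ∃ x w y : ℚ, Point f d x w y ∧ ¬ Const f x w

/-- `d` is squarefree and the twist has a rational point with `y ≠ 0` -/
def HasPoint {r : ℕ} (f : Fin r → ℤ[X]) (d : ℤ) : Prop :=
  Squarefree d ∧ ∃ x w y : ℚ, Point f d x w y

/-- `d` is squarefree and the twist has a rational point -/
def HasAnyPoint {r : ℕ} (f : Fin r → ℤ[X]) (d : ℤ) : Prop :=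
  Squarefree d ∧ ∃ x w y : ℚ, (x ≠ 0 ∨ w ≠ 0) ∧ (d : ℚ) * y ^ 2 = ∏ k, hom (f k) x w

/-- only finitely many rational numbers are of constant type -/
def ConstFinite {r : ℕ} (f : Fin r → ℤ[X]) : Prop :=
  {t : ℚ | (∀ k, hom (f k) t 1 ≠ 0) ∧ Const f t 1}.Finite

/-- `d` is squarefree and the affine curve `d y² = x⁵ - x` does not have exactly three rational
points -/
def NotFour (d : ℤ) : Prop :=
  Squarefree d ∧ {p : ℚ × ℚ | (d : ℚ) * p.2 ^ 2 = p.1 ^ 5 - p.1} ≠ {(0, 0), (1, 0), (-1, 0)}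

/-- `d` is squarefree and the number of the rational points of the affine curve
`d y² = ∏ a ∈ A, (x - a)` is not the number of the elements of `A` -/
def NotTrivial (A : Finset ℤ) (d : ℤ) : Prop :=
  Squarefree d ∧ {p : ℚ × ℚ | (d : ℚ) * p.2 ^ 2 = ∏ a ∈ A, (p.1 - a)}.ncard ≠ A.card

/-- `d` is squarefree and the number of the rational points of the affine curve
`d y² = x (x² - 1) (x² - 9) ⋯ (x² - 9 ^ (g - 1))` is not `2 g + 1` -/
def NotTrivial9 (g : ℕ) (d : ℤ) : Prop :=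
  Squarefree d ∧
    {p : ℚ × ℚ | (d : ℚ) * p.2 ^ 2 = p.1 * ∏ j ∈ range g, (p.1 ^ 2 - 9 ^ j)}.ncard ≠ 2 * g + 1

theorem partA : ∃ δ : (r : ℕ) → (Fin r → ℤ[X]) → ℝ, (∀ r f, 0 < δ r f) ∧ ∀ c : ℝ, 1 < c →
    ∃ E : Set ℝ, dimH E < 1 ∧ ∀ α : ℝ, 0 < α → α ∉ E → ManySquarefree α c ∧
      ∀ (r : ℕ) (f : Fin r → ℤ[X]), Factors f →
        (General f → FewAlong α c (δ r f) (NotConst f) ∧
          (ConstFinite f → FewAlong α c (δ r f) (HasPoint f))) ∧
        ((∀ k, (f k).natDegree ≠ 1) → FewAlong α c (δ r f) (HasAnyPoint f)) := by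
  have hst := Pool.Agent.Results.MP_10e784_ag.TwistsWithMixedFactors.result
  obtain ⟨δ1, hδ1, h1⟩ := uniform (ι := Fams) (fun k => Factors k.2 ∧ General k.2)
    (fun k => NotConst k.2) (fun k hk => (hst.1 (Fin k.1) k.2 hk.1 hk.2).1)
  obtain ⟨δ2, hδ2, h2⟩ := uniform (ι := Fams)
    (fun k => (Factors k.2 ∧ General k.2) ∧ ConstFinite k.2)
    (fun k => HasPoint k.2) (fun k hk => (hst.1 (Fin k.1) k.2 hk.1.1 hk.1.2).2 hk.2)
  obtain ⟨δ3, hδ3, h3⟩ := uniform (ι := Fams)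
    (fun k => Factors k.2 ∧ ∀ i, (k.2 i).natDegree ≠ 1)
    (fun k => HasAnyPoint k.2) (fun k hk => hst.2.1 (Fin k.1) k.2 hk.1 hk.2)
  refine ⟨fun r f => min (δ1 ⟨r, f⟩) (min (δ2 ⟨r, f⟩) (δ3 ⟨r, f⟩)),
    fun r f => lt_min (hδ1 _) (lt_min (hδ2 _) (hδ3 _)), fun c hc => ?_⟩
  obtain ⟨E, hE, h⟩ := comb (h1 c hc) (comb (h2 c hc) (h3 c hc))
  refine ⟨E, hE, fun α hα hαE => ⟨(h α hα hαE).1.1, fun r f hF => ⟨fun hG => ⟨?_, fun hfin => ?_⟩,
    fun hl => ?_⟩⟩⟩
  · exact ((h α hα hαE).1.2 ⟨r, f⟩ ⟨hF, hG⟩).mono (min_le_left _ _)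
  · exact ((h α hα hαE).2.1.2 ⟨r, f⟩ ⟨⟨hF, hG⟩, hfin⟩).mono
      ((min_le_right _ _).trans (min_le_left _ _))
  · exact ((h α hα hαE).2.2.2 ⟨r, f⟩ ⟨hF, hl⟩).mono
      ((min_le_right _ _).trans (min_le_right _ _))

theorem partB : ∃ δ : ℝ, 0 < δ ∧ ∀ c : ℝ, 1 < c →
    ∃ E : Set ℝ, dimH E < 1 ∧ ∀ α : ℝ, 0 < α → α ∉ E → FewAlong α c δ NotFour := by
  have hst := Pool.Agent.Results.MP_10e784_ag.TwistsWithMixedFactors.result
  obtain ⟨δ, hδ, h⟩ := uniform (ι := Unit) (fun _ => True) (fun _ => NotFour)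
    (fun _ _ => hst.2.2)
  refine ⟨δ (), hδ (), fun c hc => ?_⟩
  obtain ⟨E, hE, h'⟩ := h c hc
  exact ⟨E, hE, fun α hα hαE => (h' α hα hαE).2 () trivial⟩

theorem partC (c : ℝ) (hc : 1 < c) :
    ∃ E : Set ℝ, dimH E < 1 ∧ ∀ α : ℝ, 0 < α → α ∉ E →
      (∀ A : Finset ℤ, Odd A.card → 7 ≤ A.card → GenSet A → FermatSet A →
        FewAlong α c (1 / 5) (NotTrivial A)) ∧
      ∀ g : ℕ, 3 ≤ g → FewAlong α c (1 / 5) (NotTrivial9 g) := by
  have hst := Pool.Agent.Results.MP_10e784_ag.TwistsWithTrivialPoints.result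
  have h1 := uniform_const (ι := Finset ℤ) (δ := 1 / 5)
    (fun A => Odd A.card ∧ 7 ≤ A.card ∧ GenSet A ∧ FermatSet A) NotTrivial (by norm_num)
    (fun A hA => hst.1 A hA.1 hA.2.1 hA.2.2.1 hA.2.2.2) c hc
  have h2 := uniform_const (ι := ℕ) (δ := 1 / 5) (fun g => 3 ≤ g) NotTrivial9 (by norm_num)
    (fun g hg => hst.2.1 g hg) c hc
  obtain ⟨E, hE, h⟩ := comb h1 h2
  exact ⟨E, hE, fun α hα hαE => ⟨fun A a1 a2 a3 a4 => (h α hα hαE).1.2 A ⟨a1, a2, a3, a4⟩,
    fun g hg => (h α hα hαE).2.2 g hg⟩⟩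

theorem result : ∃ δ : (r : ℕ) → (Fin r → ℤ[X]) → ℝ, (∀ r f, 0 < δ r f) ∧ ∃ δ' : ℝ, 0 < δ' ∧
    ∀ c : ℝ, 1 < c → ∃ E : Set ℝ, dimH E < 1 ∧ ∀ α : ℝ, 0 < α → α ∉ E → ManySquarefree α c ∧
      (∀ (r : ℕ) (f : Fin r → ℤ[X]), Factors f →
        (General f → FewAlong α c (δ r f) (NotConst f) ∧
          (ConstFinite f → FewAlong α c (δ r f) (HasPoint f))) ∧
        ((∀ k, (f k).natDegree ≠ 1) → FewAlong α c (δ r f) (HasAnyPoint f))) ∧
      FewAlong α c δ' NotFour ∧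
      (∀ A : Finset ℤ, Odd A.card → 7 ≤ A.card → GenSet A → FermatSet A →
        FewAlong α c (1 / 5) (NotTrivial A)) ∧
      ∀ g : ℕ, 3 ≤ g → FewAlong α c (1 / 5) (NotTrivial9 g) := by
  obtain ⟨δ, hδ, hA⟩ := partA
  obtain ⟨δ', hδ', hB⟩ := partB
  refine ⟨δ, hδ, δ', hδ', fun c hc => ?_⟩
  obtain ⟨E, hE, h⟩ := comb (hA c hc) (comb (hB c hc) (partC c hc))
  exact ⟨E, hE, fun α hα hαE => ⟨(h α hα hαE).1.1, (h α hα hαE).1.2, (h α hα hαE).2.1,
    (h α hα hαE).2.2.1, (h α hα hαE).2.2.2⟩⟩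

end Pool.Agent.Results.MP_10e784_ag.SparseTwists
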