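import Pool.Agent.Results.MP_10e784_ag.TwistsWithMixedFactors
import Pool.Agent.V11300.PA.LogClasses

/-!
# The rational points on ALL quadratic twists `d y² = f(x)` with `d` in random residue classes

Let `m_0 | m_1 | m_2 | …` be moduli, `m_j` the product of the first `j` of arbitrary bases `g_i + 2 ≥ 2`, and `n_j` the residue
modulo `m_j` with independent uniform digits `ω_0, …, ω_(j-1)`. For the polynomials `∏ f k` of `TwistsWithMixedFactors` there is
`δ > 0` such that for all bases and all `L_j ≥ 1` with `∑ L_j (log m_j) ^ (-δ) < ∞`, for almost all `ω` and all large `j`: ALL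
squarefree `d ≡ n_j (mod m_j)` with `|d| ≤ L_j m_j` are such that the rational points with `y ≠ 0` of the twist are of constant
type. For example `m_j = q ^ (2 ^ j - 1)`, `L_j = 2 ^ (κ j)`, `κ < δ`: the residue classes of almost all `q`-adic integers. The
curves `d y² = x⁵ - x` of genus 2 have, for these `d`, exactly the rational points `(0, 0)`, `(1, 0)`, `(-1, 0)` and `∞`.
-/

set_option autoImplicit false

namespace Pool.Agent.Results.MP_10e784_ag.TwistsInResidueClasses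

open Finset Polynomial Filter Topology MeasureTheory
open Pool.Agent.Results.MP_10e784_ag.TwistsWithMixedFactors (hom Factors General Point Const)
open Pool.Agent.V11312.PD (modulus value law)

/-- For all bases `g` and all `L_j ≥ 1` with `∑ L_j (log m_j) ^ (-δ) < ∞`, for almost all digits `ω` and all large `j` ALL
squarefree integers `d` with `|d| ≤ L_j m_j` and `d ≡ n_j (mod m_j)` have the property `P`. -/
def Classes (δ : ℝ) (P : ℤ → Prop) : Prop :=
  ∀ (g : ℕ → ℕ) (L : ℕ → ℝ), (∀ j, 1 ≤ L j) → Summable (fun j => L j * Real.log (modulus g j) ^ (-δ)) →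
    ∀ᵐ ω ∂(law g), ∃ j₀ : ℕ, ∀ j : ℕ, j₀ ≤ j → ∀ d : ℤ, Squarefree d → |(d : ℝ)| ≤ L j * modulus g j →
      (value g ω j : ℤ) ≡ d [ZMOD (modulus g j : ℤ)] → P d

lemma classes {P : ℤ → Prop} {δ C : ℝ} (hδ : 0 < δ)
    (h : ∀ X : ℕ, 3 ≤ X → ({d : ℤ | d.natAbs ≤ X ∧ Squarefree d ∧ ¬ P d}.ncard : ℝ) ≤ C * X * Real.log X ^ (-δ)) :
    Classes δ P := by
  intro g L hL hsum
  filter_upwards [Pool.Agent.V11300.PA.ae_log g (fun d => Squarefree d ∧ ¬ P d) hδ h L hL hsum] with ω hω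
  obtain ⟨j₀, hj₀⟩ := hω
  refine ⟨j₀, fun j hj d hd h1 h2 => ?_⟩
  by_contra hP
  exact hj₀ j hj d h1 h2 ⟨hd, hP⟩

/-- **All twists in random residue classes.** (1) For all factors `f k` as in `Factors` and `General` there is `δ > 0` such that
in the classes all rational points with `y ≠ 0` of the curves `d y² = ∏ k, F k (x, w)` are of constant type, and there are none
if only finitely many rational numbers are of constant type. (2) If no factor is linear then the curves in the classes have no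
rational points. (3) For the curves `d y² = x⁵ - x` in the classes the rational points are exactly `(0, 0)`, `(1, 0)`,
`(-1, 0)` and the point at infinity. (4) Examples of bases and `L`. -/
theorem result :
    (∀ (K : Type) [Fintype K] [DecidableEq K] (f : K → ℤ[X]), Factors f → General f →
      (∃ δ : ℝ, 0 < δ ∧ Classes δ fun d => ∀ x w y : ℚ, Point f d x w y → Const f x w) ∧
      ({t : ℚ | (∀ k, hom (f k) t 1 ≠ 0) ∧ Const f t 1}.Finite →
        ∃ δ : ℝ, 0 < δ ∧ Classes δ fun d => ¬ ∃ x w y : ℚ, Point f d x w y)) ∧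
    (∀ (K : Type) [Fintype K] [DecidableEq K] (f : K → ℤ[X]), Factors f → (∀ k, (f k).natDegree ≠ 1) →
      ∃ δ : ℝ, 0 < δ ∧ Classes δ fun d => ¬ ∃ x w y : ℚ, (x ≠ 0 ∨ w ≠ 0) ∧
        (d : ℚ) * y ^ 2 = ∏ k, hom (f k) x w) ∧
    (∃ δ : ℝ, 0 < δ ∧ Classes δ fun d =>
      {p : ℚ × ℚ | (d : ℚ) * p.2 ^ 2 = p.1 ^ 5 - p.1} = {(0, 0), (1, 0), (-1, 0)}) ∧
    (∀ q : ℕ, 2 ≤ q → (∀ j, modulus (fun i => q ^ (2 ^ i) - 2) j = q ^ (2 ^ j - 1)) ∧
      ∀ δ κ : ℝ, 0 < δ → κ < δ →
        Summable fun j : ℕ => (2 : ℝ) ^ (κ * j) * Real.log ((q ^ (2 ^ j - 1) : ℕ) : ℝ) ^ (-δ)) := by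
  obtain ⟨h1, h2, h3⟩ := TwistsWithMixedFactors.result
  refine ⟨fun K _ _ f hF hG => ⟨?_, fun hfin => ?_⟩, fun K _ _ f hF hl => ?_, ?_,
    fun q hq => ⟨Pool.Agent.V11300.PA.modulus_tower q hq, fun δ κ hδ hκ => Pool.Agent.V11300.PA.summable_tower q hq δ κ hδ hκ⟩⟩
  · obtain ⟨⟨δ, hδ, C, hC⟩, -⟩ := h1 K f hF hG
    refine ⟨δ, hδ, classes (C := C) hδ fun X hX => ?_⟩
    have e : {d : ℤ | d.natAbs ≤ X ∧ Squarefree d ∧ ¬ ∀ x w y : ℚ, Point f d x w y → Const f x w} =
        {d : ℤ | d.natAbs ≤ X ∧ Squarefree d ∧ ∃ x w y : ℚ, Point f d x w y ∧ ¬ Const f x w} := by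
      ext d
      simp only [Set.mem_ofPred_eq, not_forall, exists_prop]
    rw [e]
    exact hC X hX
  · obtain ⟨δ, hδ, C, hC⟩ := (h1 K f hF hG).2 hfin
    refine ⟨δ, hδ, classes (C := C) hδ fun X hX => ?_⟩
    simp only [not_not]
    exact hC X hX
  · obtain ⟨δ, hδ, C, hC⟩ := h2 K f hF hl
    refine ⟨δ, hδ, classes (C := C) hδ fun X hX => ?_⟩
    simp only [not_not]
    exact hC X hX
  · obtain ⟨δ, hδ, C, hC⟩ := h3
    exact ⟨δ, hδ, classes (C := C) hδ fun X hX => hC X hX⟩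

end Pool.Agent.Results.MP_10e784_ag.TwistsInResidueClasses
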