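import Pool.Agent.Results.MP_10e784_ag.TwistsWithMixedFactors
import Pool.Agent.V11285.W8

/-!
# The rational points on ALL quadratic twists `d y² = f(x)`, `d` in windows around `± α v_n`

For the polynomials `∏ f k` of `TwistsWithMixedFactors` there is `δ > 0` such that for all sequences `v_n → ∞` and
`L_n ≤ v_n` with `∑ L_n (log v_n) ^ (-δ) < ∞`, for example `v_n = 2 ^ (2 ^ n)` and `L_n = (log v_n) ^ κ`, `κ < δ`, and for
almost all `α > 0`: for all large `n` ALL squarefree `d` with `| |d| - α v_n | ≤ L_n` are such that the rational points with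
`y ≠ 0` of the twist are of constant type. For example the curves `d y² = x⁵ - x` of genus 2 have exactly the rational points
`(0, 0)`, `(1, 0)`, `(-1, 0)` and `∞`.
-/

set_option autoImplicit false

namespace Pool.Agent.Results.MP_10e784_ag.WindowsOfTwists

open Finset Polynomial Filter Topology MeasureTheory
open Pool.Agent.Results.MP_10e784_ag.TwistsWithMixedFactors (hom Factors General Point Const)

/-- For all sequences `v_n ≥ 1` with limit `∞` and all lengths `0 ≤ L_n ≤ v_n` with `∑ L_n (log v_n) ^ (-δ) < ∞`, for almost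
all `α > 0` and all large `n` ALL squarefree integers `d` with `| |d| - α v_n | ≤ L_n` have the property `P`. -/
def Windows (δ : ℝ) (P : ℤ → Prop) : Prop :=
  ∀ v L : ℕ → ℝ, (∀ n, 1 ≤ v n) → Tendsto v atTop atTop → (∀ n, 0 ≤ L n) → (∀ᶠ n in atTop, L n ≤ v n) →
    Summable (fun n => L n * Real.log (v n) ^ (-δ)) →
    ∀ᵐ α : ℝ, 0 < α → ∃ n₀ : ℕ, ∀ n : ℕ, n₀ ≤ n → ∀ d : ℤ, Squarefree d → |(|(d : ℝ)|) - α * v n| ≤ L n → P d

lemma windows {P : ℤ → Prop} {δ C : ℝ} (hδ : 0 < δ)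
    (h : ∀ X : ℕ, 3 ≤ X → ({d : ℤ | d.natAbs ≤ X ∧ Squarefree d ∧ ¬ P d}.ncard : ℝ) ≤ C * X * Real.log X ^ (-δ)) :
    Windows δ P := by
  intro v L hv hvt hL0 hLv hsum
  filter_upwards [Pool.Agent.V11285.W8.ae_thinZ (fun d => Squarefree d ∧ ¬ P d) hδ h hv hvt hL0 hLv hsum] with α hα hα0
  obtain ⟨n₀, hn₀⟩ := hα hα0
  refine ⟨n₀, fun n hn d hd hw => ?_⟩
  by_contra hP
  exact hn₀ n hn d hd.ne_zero hw ⟨hd, hP⟩

/-- **All twists in windows.** (1) For all factors `f k` as in `Factors` and `General` there is `δ > 0` such that in the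
windows all rational points with `y ≠ 0` of the curves `d y² = ∏ k, F k (x, w)` are of constant type, and there are none if only
finitely many rational numbers are of constant type. (2) If no factor is linear then the curves in the windows have no
rational points. (3) For the curves `d y² = x⁵ - x` in the windows the rational points are exactly `(0, 0)`, `(1, 0)`,
`(-1, 0)` and the point at infinity. (4) Examples of `v`, `L`. -/
theorem result :
    (∀ (K : Type) [Fintype K] [DecidableEq K] (f : K → ℤ[X]), Factors f → General f →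
      (∃ δ : ℝ, 0 < δ ∧ Windows δ fun d => ∀ x w y : ℚ, Point f d x w y → Const f x w) ∧
      ({t : ℚ | (∀ k, hom (f k) t 1 ≠ 0) ∧ Const f t 1}.Finite →
        ∃ δ : ℝ, 0 < δ ∧ Windows δ fun d => ¬ ∃ x w y : ℚ, Point f d x w y)) ∧
    (∀ (K : Type) [Fintype K] [DecidableEq K] (f : K → ℤ[X]), Factors f → (∀ k, (f k).natDegree ≠ 1) →
      ∃ δ : ℝ, 0 < δ ∧ Windows δ fun d => ¬ ∃ x w y : ℚ, (x ≠ 0 ∨ w ≠ 0) ∧
        (d : ℚ) * y ^ 2 = ∏ k, hom (f k) x w) ∧
    (∃ δ : ℝ, 0 < δ ∧ Windows δ fun d =>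
      {p : ℚ × ℚ | (d : ℚ) * p.2 ^ 2 = p.1 ^ 5 - p.1} = {(0, 0), (1, 0), (-1, 0)}) ∧
    (∀ δ κ : ℝ, κ < δ → Summable fun n : ℕ =>
      Real.log ((2 : ℝ) ^ (2 ^ n)) ^ κ * Real.log ((2 : ℝ) ^ (2 ^ n)) ^ (-δ)) := by
  obtain ⟨h1, h2, h3⟩ := TwistsWithMixedFactors.result
  refine ⟨fun K _ _ f hF hG => ⟨?_, fun hfin => ?_⟩, fun K _ _ f hF hl => ?_, ?_,
    fun δ κ h => Pool.Agent.V11285.W8.summable_example h⟩
  · obtain ⟨⟨δ, hδ, C, hC⟩, -⟩ := h1 K f hF hG
    refine ⟨δ, hδ, windows (C := C) hδ fun X hX => ?_⟩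
    have e : {d : ℤ | d.natAbs ≤ X ∧ Squarefree d ∧ ¬ ∀ x w y : ℚ, Point f d x w y → Const f x w} =
        {d : ℤ | d.natAbs ≤ X ∧ Squarefree d ∧ ∃ x w y : ℚ, Point f d x w y ∧ ¬ Const f x w} := by
      ext d
      simp only [Set.mem_ofPred_eq, not_forall, exists_prop]
    rw [e]
    exact hC X hX
  · obtain ⟨δ, hδ, C, hC⟩ := (h1 K f hF hG).2 hfin
    refine ⟨δ, hδ, windows (C := C) hδ fun X hX => ?_⟩
    simp only [not_not]
    exact hC X hX
  · obtain ⟨δ, hδ, C, hC⟩ := h2 K f hF hl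
    refine ⟨δ, hδ, windows (C := C) hδ fun X hX => ?_⟩
    simp only [not_not]
    exact hC X hX
  · obtain ⟨δ, hδ, C, hC⟩ := h3
    exact ⟨δ, hδ, windows (C := C) hδ fun X hX => hC X hX⟩

end Pool.Agent.Results.MP_10e784_ag.WindowsOfTwists
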